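import Pool.Agent.W580.SH.StmB

set_option autoImplicit false

namespace Pool.Agent.W575.SH.Tri

open Pool.Agent.W580.SH

theorem third : ∀ a b : Fin 3, a ≠ b → ∃ c : Fin 3, c ≠ a ∧ c ≠ b := by decide

theorem other : ∀ a : Fin 3, ∃ c : Fin 3, c ≠ a := by decide

theorem aux (hO : S_ONE) (hV : S_V2) (hA : S_ADJ) {R : Type} [Fintype R] [DecidableEq R]
    (I : Finset R) (A : Finset (R → ℤ)) (O : R → ℝ) (θ : ℝ) (hB : HypB I A O θ)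
    (hθ : θ = 1 / 3) (J : Finset R) (hJ : J ⊆ I) (hst : Stuck A J) (l s q : R)
    (hl : l ∈ J) (hOl : O l = θ) (hs : s ∈ J) (hOs : O s = θ) (hq : q ∈ J) (hOq : O q = θ)
    (hls : l ≠ s) (hlq : l ≠ q) (h1 : ∃ y ∈ A, y l = 1 ∧ y s = 1)
    (h2 : ∃ y ∈ A, y l = 1 ∧ y q = 1) (h3 : ∃ y ∈ A, y s = 1 ∧ y q = 1) :
    (∃ x ∈ A, x l = 0 ∧ x s = 0 ∧ x q = 0) ∧ ∃ x ∈ A, x l = 0 ∧ x s = 1 ∧ x q = 1 := by
  obtain ⟨u, v, huv⟩ := hst.2 l hl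
  have hs' := (hA R I A O θ hB hθ J hJ hst l hl hOl s hs hOs hls.symm u v huv).2 h1
  have hq' := (hA R I A O θ hB hθ J hJ hst l hl hOl q hq hOq hlq.symm u v huv).2 h2
  obtain ⟨-, a, ha1, ha2⟩ := hO R I A O θ hB J hJ l hl hOl u v huv s hs hls.symm hs'
  obtain ⟨-, b, hb1, hb2⟩ := hO R I A O θ hB J hJ l hl hOl u v huv q hq hlq.symm hq'
  have hp := huv.1
  by_cases hab : a = b
  · subst hab
    obtain ⟨c, hc⟩ := other a
    refine ⟨⟨v c, (hp c).2.1, (hp c).2.2.2.1, ?_, ?_⟩, ⟨v a, (hp a).2.1, (hp a).2.2.2.1, ?_, ?_⟩⟩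
    · rw [← (hp c).2.2.2.2 s hs hls.symm]; exact ha2 c hc
    · rw [← (hp c).2.2.2.2 q hq hlq.symm]; exact hb2 c hc
    · rw [← (hp a).2.2.2.2 s hs hls.symm]; exact ha1
    · rw [← (hp a).2.2.2.2 q hq hlq.symm]; exact hb1
  · exfalso
    obtain ⟨c, hca, hcb⟩ := third a b hab
    obtain ⟨y, hy, hys, hyq⟩ := h3
    have hprism : Prism A l s q 1 1 ![u c, u a, u b] ![v c, v a, v b] := by
      have key : ∀ i : Fin 3, u i ∈ A ∧ v i ∈ A ∧ u i l = 1 ∧ v i l = 0 ∧ v i s = u i s ∧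
          v i q = u i q := fun i =>
        ⟨(hp i).1, (hp i).2.1, (hp i).2.2.1, (hp i).2.2.2.1,
          ((hp i).2.2.2.2 s hs hls.symm).symm, ((hp i).2.2.2.2 q hq hlq.symm).symm⟩
      refine ⟨?_, ?_, ?_, ?_, ?_, ?_, ?_⟩
      · intro i
        fin_cases i
        · exact key c
        · exact key a
        · exact key b
      · show u c s = 1 - 1
        rw [ha2 c hca]; norm_num
      · show u c q = 1 - 1
        rw [hb2 c hcb]; norm_num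
      · exact ha1
      · show u a q = 1 - 1
        rw [hb2 a hab]; norm_num
      · show u b s = 1 - 1
        rw [ha2 b (Ne.symm hab)]; norm_num
      · exact hb1
    exact hV R I A O θ hB l s q _ _ hprism y hy ⟨hys, hyq⟩

theorem main (hO : S_ONE) (hV : S_V2) (hT : S_TET) (hA : S_ADJ) : S_TRI := by
  intro R _ _ I A O θ hB hθ J hJ hst l hl hOl s hs hOs q hq hOq hls hlq hsq
  rintro ⟨h1, h2, h3⟩
  have sw : ∀ a b : R, (∃ y ∈ A, y a = 1 ∧ y b = 1) → ∃ y ∈ A, y b = 1 ∧ y a = 1 := by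
    rintro a b ⟨y, hy, h, h'⟩
    exact ⟨y, hy, h', h⟩
  obtain ⟨⟨x, hx, hx1, hx2, hx3⟩, ⟨y, hy, hy1, hy2, hy3⟩⟩ :=
    aux hO hV hA I A O θ hB hθ J hJ hst l s q hl hOl hs hOs hq hOq hls hlq h1 h2 h3
  obtain ⟨-, ⟨z, hz, hz1, hz2, hz3⟩⟩ :=
    aux hO hV hA I A O θ hB hθ J hJ hst s l q hs hOs hl hOl hq hOq hls.symm hsq (sw _ _ h1) h3 h2
  obtain ⟨-, ⟨w, hw, hw1, hw2, hw3⟩⟩ :=
    aux hO hV hA I A O θ hB hθ J hJ hst q l s hq hOq hl hOl hs hOs hlq.symm hsq.symm (sw _ _ h2)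
      (sw _ _ h3) h1
  exact hT R I A O θ hB l s q x hx y hy z hz w hw
    ⟨hx1, hx2, hx3, hy1, hy2, hy3, hz2, hz1, hz3, hw2, hw3, hw1⟩

end Pool.Agent.W575.SH.Tri
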